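import Mathlib

/-!
# Few generators of a finite extension
-/

set_option autoImplicit false

universe u v

namespace Pool.Agent.Y179.BI

open IntermediateField

theorem gen_aux {F : Type v} {E : Type u} [Field F] [Field E] [Algebra F E]
    [FiniteDimensional F E] (P : Set E) (hP : adjoin F P = ⊤) (m : ℕ) :
    ∃ T : Finset E, (T : Set E) ⊆ P ∧ T.card ≤ m ∧
      (adjoin F (T : Set E) = ⊤ ∨ m + 1 ≤ Module.finrank F (adjoin F (T : Set E))) := by
  classical
  induction m with
  | zero =>
    exact ⟨∅, by simp, by simp, Or.inr (by
      rw [zero_add]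
      exact Module.finrank_pos)⟩
  | succ m ih =>
    obtain ⟨T, hTP, hTc, hT⟩ := ih
    by_cases htop : adjoin F (T : Set E) = ⊤
    · exact ⟨T, hTP, by omega, Or.inl htop⟩
    · have hT' : m + 1 ≤ Module.finrank F (adjoin F (T : Set E)) := hT.resolve_left htop
      obtain ⟨x, hxP, hx⟩ : ∃ x ∈ P, x ∉ adjoin F (T : Set E) := by
        by_contra hcon
        push Not at hcon
        apply htop
        rw [eq_top_iff, ← hP]
        exact adjoin_le_iff.2 hcon
      refine ⟨insert x T, ?_, (Finset.card_insert_le x T).trans (by omega), Or.inr ?_⟩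
      · rw [Finset.coe_insert]
        exact Set.insert_subset hxP hTP
      · have hle : adjoin F (T : Set E) ≤ adjoin F ((insert x T : Finset E) : Set E) := by
          apply adjoin.mono
          rw [Finset.coe_insert]
          exact Set.subset_insert _ _
        have hne : adjoin F (T : Set E) ≠ adjoin F ((insert x T : Finset E) : Set E) := by
          intro h
          apply hx
          rw [h]
          apply subset_adjoin
          rw [Finset.coe_insert]
          exact Set.mem_insert _ _
        have hlt : Module.finrank F (adjoin F (T : Set E)) <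
            Module.finrank F (adjoin F ((insert x T : Finset E) : Set E)) := by
          by_contra hcon
          push Not at hcon
          exact hne (eq_of_le_of_finrank_le hle hcon)
        omega

theorem gen {F : Type v} {E : Type u} [Field F] [Field E] [Algebra F E]
    [FiniteDimensional F E] (n : ℕ) (hn : Module.finrank F E ≤ n) (P : Set E)
    (hP : adjoin F P = ⊤) :
    ∃ T : Finset E, (T : Set E) ⊆ P ∧ T.card ≤ n ∧ adjoin F (T : Set E) = ⊤ := by
  obtain ⟨T, hTP, hTc, hT⟩ := gen_aux P hP n
  refine ⟨T, hTP, hTc, ?_⟩
  rcases hT with hT | hT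
  · exact hT
  · exfalso
    have h1 : Module.finrank F (adjoin F (T : Set E)) ≤ Module.finrank F E :=
      Submodule.finrank_le (adjoin F (T : Set E)).toSubalgebra.toSubmodule
    omega

/-- the statement `Pool.Agent.Y706.BI.S_GEN.{u, v}`, unfolded -/
theorem t_GEN : ∀ (F : Type v) (E : Type u) [Field F] [Field E] [Algebra F E]
    [FiniteDimensional F E] (n : ℕ), Module.finrank F E ≤ n → ∀ P : Set E,
    IntermediateField.adjoin F P = ⊤ →
    ∃ T : Finset E, (T : Set E) ⊆ P ∧ T.card ≤ n ∧
      IntermediateField.adjoin F (T : Set E) = ⊤ :=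
  fun _ _ _ _ _ _ n hn P hP => gen n hn P hP

end Pool.Agent.Y179.BI
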